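import Pool.Agent.Q99.HU.Stm1
import Pool.Agent.Q239.HT.ASN

/-!
# Project HU, job ASNb: asymptotics of the state sum of a highly twisted network, without acute angles

Proof by helper210, after the proof of helper239 for the project HT.
-/

set_option autoImplicit false

namespace Pool.Agent.Q210.HU

open Finset Filter Topology MeasureTheory
open Pool.Agent.Q99.HT
open Pool.Agent.Q99.HU (S_NW0b S_NWb BNcb Ltn S_LMO S_SDNb S_MXNb S_BXNb S_LPNb AScb S_ASNb)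
open Pool.Agent.Q99.KN (S_LC S_GAM S_LAP S_GIM)
open Pool.Agent.Q239.HT (exists_pos_le exists_ge tendsto_pow_exp)

theorem common {c d : ℕ} {X : Nw c d} (hX : X.Okb) (hBMO : S_BMO)
    (hBlk : ∀ α : Fin 6 → ℝ, Fr α → ∃ r κ K C0 : ℝ, Blk α r κ K C0) (hLMO : S_LMO)
    (hLt : ∀ s, ∃ κ C0 ρ : ℝ, 0 < κ ∧ 0 < ρ ∧ Ltn (X.α s) κ C0 ρ) :
    ∃ r κ K C0 : ℝ, ∀ s, Blk (X.α s) r κ K C0 ∧ Ltn (X.α s) κ C0 r := by
  choose r κ K C0 hB using fun s => hBlk (X.α s) (hX.fr s)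
  choose κ' C0' ρ' hκ' hρ' hL using hLt
  obtain ⟨r1, hr1, hr2⟩ := exists_pos_le (fun s => min (r s) (ρ' s)) fun s =>
    lt_min (hB s).r0 (hρ' s)
  obtain ⟨κ1, hκ1, hκ2⟩ := exists_pos_le (fun s => min (κ s) (κ' s)) fun s => lt_min (hB s).κ0 (hκ' s)
  obtain ⟨K1, hK1⟩ := exists_ge K
  obtain ⟨C1, hC1⟩ := exists_ge fun s => max (C0 s) (C0' s)
  refine ⟨r1, κ1, K1, C1, fun s => ⟨?_, ?_⟩⟩
  · exact hBMO _ _ _ _ _ _ _ _ _ (hB s) hr1 ((hr2 s).trans (min_le_left _ _)) hκ1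
      ((hκ2 s).trans (min_le_left _ _)) (hK1 s) ((le_max_left _ _).trans (hC1 s))
  · exact hLMO _ _ _ _ _ _ _ (hL s) ((hκ2 s).trans (min_le_right _ _))
      ((le_max_right _ _).trans (hC1 s)) ((hr2 s).trans (min_le_right _ _))

/-- **job ASNb** -/
theorem task_ASNb : S_ASNb := by
  intro hLC _hGAM hBMO hBlk hLMO hZZ hNW0 hGPX hMPX hBN hNW hSDN hLAP hGIM hMXN hBXN hLPN hLTd
    c d X hX hFar hLt
  obtain ⟨r, κ, K, C0, hBL⟩ := common hX hBMO hBlk hLMO hLt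
  obtain ⟨δ1, hδ1, hNW'⟩ := hNW hNW0 hGPX hMPX hBN c d X hX hFar r κ K C0 r le_rfl hBL
  obtain ⟨δ2, hδ2, hLPN'⟩ := hLPN hLC hLAP hGIM hMXN hBXN c d X hX r κ K C0 (fun s => (hBL s).1)
  obtain ⟨ρ1, hρ1, hSDN'⟩ := hSDN hLC hLTd hZZ c d X hX r κ K C0 (fun s => (hBL s).1)
  set δ := min δ1 δ2 with hδ
  have hδ0 : 0 < δ := lt_min hδ1 hδ2
  obtain ⟨τ1, c2, hτ1, hc2, hN1⟩ := hNW' δ hδ0 (min_le_left _ _)
  obtain ⟨ρ2, hρ2, hN2⟩ := hLPN' δ hδ0 (min_le_right _ _)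
  refine ⟨min ρ1 ρ2, lt_min hρ1 hρ2, fun ρ hρ0 hρ => ?_⟩
  obtain ⟨W1, C1, hW1, hN3⟩ := hSDN' ρ hρ0 (hρ.trans (min_le_left _ _))
  set Ca := |C1| with hCa
  have hCa0 : 0 ≤ Ca := abs_nonneg _
  have hC1a : C1 ≤ Ca := le_abs_self _
  set E0 : ℝ := |K| * Ca ^ 2 + (Real.pi * Ca) ^ 2 / (16 * |κ|) + |K| * Ca ^ 2 with hE0
  have hE0' : 0 ≤ E0 := by positivity
  refine ⟨max W1 (max (Ca / τ1) (2 * (c * E0 + Ca) / c2)), C1, hW1.trans (le_max_left _ _),
    fun w W hWW hw => ?_⟩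
  have w2 : W1 ≤ W := (le_max_left _ _).trans hWW
  have w4 : Ca / τ1 ≤ W := ((le_max_left _ _).trans (le_max_right _ _)).trans hWW
  have w6 : 2 * (c * E0 + Ca) / c2 ≤ W := ((le_max_right _ _).trans (le_max_right _ _)).trans hWW
  have w1 : 1 ≤ W := hW1.trans w2
  have hW0 : 0 < W := by linarith
  have hW2 : W ≤ W ^ 2 := by nlinarith
  rw [div_le_iff₀ hτ1] at w4
  rw [div_le_iff₀ hc2] at w6
  obtain ⟨T, J, ζ, hcr, hnr, hT, hJ, hζ, hPh, huni⟩ := hN3 w W w2 hw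
  refine ⟨T, J, ζ, hcr, hnr, fun s => (hζ s).2.1, hPh, huni, ?_⟩
  have hnr2 : X.Nr ρ2 T J ζ := by
    have h : ρ ≤ ρ2 := hρ.trans (min_le_right _ _)
    exact ⟨fun j => (hnr.1 j).trans_le h, fun s => (hnr.2.1 s).trans_le h, fun s => (hnr.2.2 s).trans_le h⟩
  obtain ⟨z, hz, hlim⟩ := hN2 w T J ζ hcr hnr2 fun s => (hζ s).2.1
  refine ⟨z, hz, ?_⟩
  -- bounds on the data
  have hwpos : ∀ s, 0 < |(w s : ℝ)| := fun s => hW0.trans_le (hw s)
  have hCaW : Ca / W ≤ τ1 := by rw [div_le_iff₀ hW0]; linarith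
  have hCaW0 : 0 ≤ Ca / W := by positivity
  have hy2 : ∀ s, (ζ s).im ≤ Ca / (w s : ℝ) ^ 2 := fun s =>
    (hζ s).2.2.trans (div_le_div_of_nonneg_right hC1a (sq_nonneg _))
  have hy : ∀ s, |(w s : ℝ)| * (ζ s).im ≤ Ca / W := by
    intro s
    have h1 := hy2 s
    rw [← sq_abs, le_div_iff₀ (by have := hwpos s; positivity)] at h1
    rw [le_div_iff₀ hW0]
    have h2 := hw s
    have h3 := (hζ s).2.1
    nlinarith [mul_le_mul_of_nonneg_left h2 (mul_nonneg (hwpos s).le h3.le)]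
  have hy1 : ∀ s, (ζ s).im ≤ Ca / W := by
    intro s
    have h1 : 1 ≤ |(w s : ℝ)| := w1.trans (hw s)
    have h3 := (hζ s).2.1
    have h4 := hy s
    nlinarith
  have hJim : ∀ s, |(J s).im| ≤ Ca / W := by
    intro s
    have h1 : |(J s).im| ≤ ‖J s - X.α s 1‖ := by
      have := Complex.abs_im_le_norm (J s - X.α s 1)
      simpa using this
    exact (h1.trans (hJ s)).trans (div_le_div_of_nonneg_right hC1a hW0.le)
  have hTim : ∀ j, |(T j).im| ≤ Ca / W := by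
    intro j
    have h1 : |(T j).im| ≤ ‖T j - X.τ j‖ := by
      have := Complex.abs_im_le_norm (T j - X.τ j)
      simpa using this
    exact (h1.trans (hT j)).trans (div_le_div_of_nonneg_right hC1a hW0.le)
  obtain ⟨C', p, N0, hN⟩ := hN1 w (fun s => (ζ s).im) (fun s => (J s).im) (fun j => (T j).im)
    (E0 / W ^ 2) (by positivity) (by
      intro s
      refine ⟨(hζ s).2.1, (hy1 s).trans hCaW, (hy s).trans hCaW, (hJim s).trans hCaW, ?_⟩
      have hκ := (hBL s).1.κ0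
      have hK : 0 < K := hκ.trans_le (hBL s).1.κK
      have a1 : (J s).im ^ 2 ≤ Ca ^ 2 / W ^ 2 := by
        rw [← sq_abs (J s).im, ← div_pow]
        exact pow_le_pow_left₀ (abs_nonneg _) (hJim s) 2
      have a2 : (Real.pi * (w s) * (ζ s).im) ^ 2 ≤ (Real.pi * Ca) ^ 2 / W ^ 2 := by
        have h1 : (Real.pi * (w s) * (ζ s).im) ^ 2 =
            Real.pi ^ 2 * (|(w s : ℝ)| * (ζ s).im) ^ 2 := by
          rw [mul_pow |_|, sq_abs]; ring
        have h2 : 0 ≤ |(w s : ℝ)| * (ζ s).im := mul_nonneg (abs_nonneg _) (hζ s).2.1.le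
        have h3 := pow_le_pow_left₀ h2 (hy s) 2
        rw [h1]
        calc _ ≤ Real.pi ^ 2 * (Ca / W) ^ 2 := mul_le_mul_of_nonneg_left h3 (sq_nonneg _)
          _ = _ := by ring
      have a3 : (ζ s).im ^ 2 ≤ Ca ^ 2 / W ^ 2 := by
        rw [← div_pow]
        exact pow_le_pow_left₀ (hζ s).2.1.le (hy1 s) 2
      have b1 := mul_le_mul_of_nonneg_left a1 hK.le
      have b2 := div_le_div_of_nonneg_right a2 (by positivity : 0 ≤ 16 * κ)
      have b3 := mul_le_mul_of_nonneg_left a3 hK.le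
      calc _ ≤ K * (Ca ^ 2 / W ^ 2) + (Real.pi * Ca) ^ 2 / W ^ 2 / (16 * κ) + K * (Ca ^ 2 / W ^ 2) :=
            add_le_add (add_le_add b1 b2) b3
        _ = E0 / W ^ 2 := by rw [hE0, abs_of_pos hK, abs_of_pos hκ]; field_simp)
    (fun j => (hTim j).trans hCaW)
  set V := ∑ s, v0 (X.α s) with hV
  have hloss : c * (E0 / W ^ 2) + Ca / W ^ 2 ≤ c2 / 2 := by
    have : c * (E0 / W ^ 2) + Ca / W ^ 2 = (c * E0 + Ca) / W ^ 2 := by
      field_simp
    rw [this, div_le_iff₀ (by positivity)]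
    have := mul_le_mul_of_nonneg_left hW2 hc2.le
    linarith
  -- the error tends to zero
  set pre : ℕ → ℂ := fun N => ((√N : ℝ) : ℂ) ^ X.nA / ((√N : ℝ) : ℂ) ^ Fintype.card X.Ix *
    (-1) ^ (c * (N - 1)) * Complex.exp (-(N * X.Ph w T J ζ)) with hpre
  have hpn : ∀ N : ℕ, 1 ≤ N → ‖pre N‖ ≤ (N : ℝ) ^ X.nA * Real.exp (-(N * (V - Ca / W ^ 2))) := by
    intro N hN1
    have hN1' : (1:ℝ) ≤ N := by exact_mod_cast hN1
    have hs1 : 1 ≤ √(N:ℝ) := Real.one_le_sqrt.2 hN1'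
    have hs2 : √(N:ℝ) ≤ N := by
      rw [Real.sqrt_le_left (by linarith)]
      nlinarith
    simp only [hpre]
    rw [norm_mul, norm_mul, norm_div, norm_pow, norm_pow, norm_pow, norm_neg, norm_one, one_pow, mul_one,
      Complex.norm_real, Real.norm_of_nonneg (Real.sqrt_nonneg _), Complex.norm_exp]
    have h1 : (√(N:ℝ)) ^ X.nA / (√(N:ℝ)) ^ Fintype.card X.Ix ≤ (N : ℝ) ^ X.nA :=
      (div_le_self (by positivity) (one_le_pow₀ hs1)).trans (pow_le_pow_left₀ (Real.sqrt_nonneg _) hs2 _)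
    have h2 : (-(N * X.Ph w T J ζ)).re = -(N * (X.Ph w T J ζ).re) := by
      rw [Complex.neg_re, Complex.mul_re, Complex.natCast_re, Complex.natCast_im, zero_mul, sub_zero]
    rw [h2]
    refine mul_le_mul h1 (Real.exp_le_exp.2 ?_) (Real.exp_pos _).le (by positivity)
    have h3 := (abs_le.1 hPh).1
    have h4 : C1 / W ^ 2 ≤ Ca / W ^ 2 := div_le_div_of_nonneg_right hC1a (by positivity)
    have h5 : V - Ca / W ^ 2 ≤ (X.Ph w T J ζ).re := by linarith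
    have := mul_le_mul_of_nonneg_left h5 (by positivity : (0:ℝ) ≤ N)
    linarith
  have herr : Tendsto (fun N : ℕ => pre N * (X.Z N w - N ^ d * ∫ x in X.bx δ N, ∏ s,
      FZ r N (X.α s) (w s) (ζ s).im (J s).im (X.xN N (fun j => x j + (T j).im * Complex.I) s)))
      atTop (𝓝 0) := by
    refine squeeze_zero_norm' ?_ (tendsto_pow_exp (X.nA + p) (half_pos hc2) C')
    filter_upwards [eventually_ge_atTop (max 1 N0)] with N hNN
    have hN1 : 1 ≤ N := (le_max_left _ _).trans hNN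
    have hN2 : N0 ≤ N := (le_max_right _ _).trans hNN
    have h1 := hN N hN2
    have h2 := hpn N hN1
    rw [norm_mul]
    have hC'0 : 0 ≤ C' * (N : ℝ) ^ p * Real.exp (N * (V + c * (E0 / W ^ 2) - c2)) :=
      (norm_nonneg _).trans h1
    have hNp : (0:ℝ) < (N : ℝ) := by exact_mod_cast hN1
    have hC'1 : 0 ≤ C' := by
      have h3 : 0 < (N : ℝ) ^ p * Real.exp (N * (V + c * (E0 / W ^ 2) - c2)) := by positivity
      rw [mul_assoc] at hC'0
      exact nonneg_of_mul_nonneg_left hC'0 h3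
    calc _ ≤ ((N : ℝ) ^ X.nA * Real.exp (-(N * (V - Ca / W ^ 2)))) *
          (C' * (N : ℝ) ^ p * Real.exp (N * (V + c * (E0 / W ^ 2) - c2))) :=
          mul_le_mul h2 h1 (norm_nonneg _) (by positivity)
      _ = C' * ((N : ℝ) ^ (X.nA + p) * Real.exp (N * (c * (E0 / W ^ 2) + Ca / W ^ 2 - c2))) := by
          have : Real.exp (N * (c * (E0 / W ^ 2) + Ca / W ^ 2 - c2)) =
              Real.exp (-(N * (V - Ca / W ^ 2))) *
              Real.exp (N * (V + c * (E0 / W ^ 2) - c2)) := by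
            rw [← Real.exp_add]; congr 1; ring
          rw [this, pow_add]; ring
      _ ≤ _ := by
          refine mul_le_mul_of_nonneg_left (mul_le_mul_of_nonneg_left (Real.exp_le_exp.2 ?_)
            (by positivity)) hC'1
          have := mul_le_mul_of_nonneg_left hloss hNp.le
          linarith
  have hsum := hlim.add herr
  rw [add_zero] at hsum
  refine hsum.congr fun N => ?_
  simp only [hpre]
  ring

end Pool.Agent.Q210.HU
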