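import Pool.Agent.Q210.HU.NW0bA

/-!
# Project HU, job NW0b: the sum over a network as an integral

Proof by helper210, after the proof of helper299 for the project HT.
-/

set_option autoImplicit false

namespace Pool.Agent.Q210.HU

open Finset Filter Topology MeasureTheory
open Pool.Agent.Q99.HT
open Pool.Agent.Q99.HU (S_NW0b)
open Pool.Agent.Q299.HT (prod_diff latR qR qR_int xN_int xN_re xN_im latR_abs m0 Q0 Q0_nonneg LD_prod
  U_open sq_lower prod_exp_le ME ME_one sum_E_le)

theorem task_NW0b : S_NW0b := by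
  classical
  intro hGPX hMPX c d X hX r κ K c1 hr hr64 hctr hκ hκK hc1
  obtain ⟨κ1, hκ0, hκ1, hlat⟩ := lat_lower X hX
  obtain ⟨B, hB1, hbox⟩ := ps_box X hX hκ0 hlat
  obtain ⟨CM, hCM0, hMP⟩ := hMPX hGPX d
  have hME := ME_one X
  have hMEp : 0 < ME X := by linarith
  have hK : 0 < K := by linarith
  have hπ := Real.pi_pos
  refine ⟨min 1 (r / (16 * ME X)), by positivity, fun δ hδ hδ0 c3 hc3 => ?_⟩
  have hδ1 : δ ≤ 1 := hδ0.trans (min_le_left _ _)
  have hδr : ME X * δ ≤ r / 16 := by
    have h1 : δ ≤ r / (16 * ME X) := hδ0.trans (min_le_right _ _)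
    rw [le_div_iff₀ (by positivity)] at h1
    linarith
  set H : ℝ := K * (3 * c * ME X ^ 2) + 1 with hH
  have hH0 : 0 < H := by positivity
  set τ1 : ℝ := min 1 (min (r / (16 * ME X)) (min (Real.pi / H) (κ * κ1 * δ ^ 2 / (16 * H)))) with hτ1
  have hτ0 : 0 < τ1 := by
    refine lt_min one_pos (lt_min (by positivity) (lt_min (by positivity) (by positivity)))
  have hτa : τ1 ≤ 1 := min_le_left _ _
  have hτb : ME X * τ1 ≤ r / 16 := by
    have h1 : τ1 ≤ r / (16 * ME X) := (min_le_right _ _).trans (min_le_left _ _)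
    rw [le_div_iff₀ (by positivity)] at h1
    linarith
  have hτc : K * (3 * c * ME X ^ 2) * τ1 ^ 2 ≤ Real.pi * τ1 := by
    have h1 : τ1 ≤ Real.pi / H := (min_le_right _ _).trans ((min_le_right _ _).trans (min_le_left _ _))
    rw [le_div_iff₀ hH0] at h1
    have h2 : K * (3 * c * ME X ^ 2) * τ1 ≤ Real.pi := by nlinarith
    calc K * (3 * c * ME X ^ 2) * τ1 ^ 2 = (K * (3 * c * ME X ^ 2) * τ1) * τ1 := by ring
      _ ≤ Real.pi * τ1 := mul_le_mul_of_nonneg_right h2 hτ0.le
  have hτd : K * (3 * c * ME X ^ 2) * τ1 ^ 2 ≤ κ * κ1 * δ ^ 2 / 16 := by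
    have h1 : τ1 ≤ κ * κ1 * δ ^ 2 / (16 * H) :=
      (min_le_right _ _).trans ((min_le_right _ _).trans (min_le_right _ _))
    rw [le_div_iff₀ (by positivity)] at h1
    have h2 : K * (3 * c * ME X ^ 2) * τ1 ≤ κ * κ1 * δ ^ 2 / 16 := by nlinarith
    have h3 : 0 ≤ K * (3 * c * ME X ^ 2) * τ1 := by positivity
    calc K * (3 * c * ME X ^ 2) * τ1 ^ 2 = (K * (3 * c * ME X ^ 2) * τ1) * τ1 := by ring
      _ ≤ K * (3 * c * ME X ^ 2) * τ1 := mul_le_of_le_one_right h3 hτa
      _ ≤ _ := h2
  set c2 : ℝ := min (Real.pi * τ1) (min (κ * κ1 * δ ^ 2 / 16) (min c1 c3)) with hc2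
  have hc20 : 0 < c2 := lt_min (by positivity) (lt_min (by positivity) (lt_min hc1 hc3))
  have hc2a : c2 ≤ Real.pi * τ1 := min_le_left _ _
  have hc2b : c2 ≤ κ * κ1 * δ ^ 2 / 16 := (min_le_right _ _).trans (min_le_left _ _)
  have hc2c : c2 ≤ c1 := (min_le_right _ _).trans ((min_le_right _ _).trans (min_le_left _ _))
  have hc2d : c2 ≤ c3 := (min_le_right _ _).trans ((min_le_right _ _).trans (min_le_right _ _))
  set m1 : ℝ := |m0 X| + κ * Q0 X with hm1
  have hm10 : 0 ≤ m1 := by
    have := Q0_nonneg X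
    positivity
  set Qm : ℝ := ∑ s, ∑ i, |(X.q0 s i : ℝ)| with hQm
  have hQ : ∀ s i, |(X.q0 s i : ℝ)| ≤ Qm := by
    intro s i
    refine (Finset.single_le_sum (f := fun i => |(X.q0 s i : ℝ)|) (fun i _ => abs_nonneg _)
      (Finset.mem_univ i)).trans ?_
    exact Finset.single_le_sum (f := fun s => ∑ i, |(X.q0 s i : ℝ)|)
      (fun s _ => Finset.sum_nonneg fun i _ => abs_nonneg _) (Finset.mem_univ s)
  refine ⟨τ1, c2, (3 * B) ^ d * Real.exp m1 + 3 ^ d * (c * 2 ^ c) * Real.exp m1 +
    CM * 3 ^ d * (2 * Real.exp m1), hτ0, hc20, d,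
    max 1 (max ⌈1 / δ⌉₊ (max ⌈1 / τ1⌉₊ (max ⌈8 * ME X / r⌉₊ ⌈16 * Qm / r⌉₊))), ?_⟩
  intro N hN Z F M e hM he hZ0 hFr hLD hF hZF η hη
  have hN1 : 0 < N := lt_of_lt_of_le one_pos ((le_max_left _ _).trans hN)
  have hN0 : (0 : ℝ) < N := by exact_mod_cast hN1
  have hN1' : (1 : ℝ) ≤ N := by exact_mod_cast hN1
  have g1 : 1 ≤ N * δ := by
    have h : 1 / δ ≤ N := (Nat.le_ceil _).trans (by
      exact_mod_cast (le_max_left _ _).trans ((le_max_right _ _).trans hN))
    rwa [div_le_iff₀ hδ] at h
  have g2 : 1 ≤ τ1 * N := by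
    have h : 1 / τ1 ≤ N := (Nat.le_ceil _).trans (by
      exact_mod_cast (le_max_left _ _).trans ((le_max_right _ _).trans ((le_max_right _ _).trans hN)))
    rw [div_le_iff₀ hτ0] at h
    linarith
  have g3 : 8 * ME X ≤ N * r := by
    have h : 8 * ME X / r ≤ N := (Nat.le_ceil _).trans (by
      exact_mod_cast (le_max_left _ _).trans ((le_max_right _ _).trans ((le_max_right _ _).trans
        ((le_max_right _ _).trans hN))))
    rwa [div_le_iff₀ hr] at h
  have g4 : 16 * Qm ≤ N * r := by
    have h : 16 * Qm / r ≤ N := (Nat.le_ceil _).trans (by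
      exact_mod_cast (le_max_right _ _).trans ((le_max_right _ _).trans ((le_max_right _ _).trans
        ((le_max_right _ _).trans hN))))
    rwa [div_le_iff₀ hr] at h
  have e1 : 1 / (2 * (N : ℝ)) ≤ δ / 2 := by
    rw [div_le_div_iff₀ (by positivity) (by norm_num)]
    linarith
  have e2 : ME X * (1 / (2 * (N : ℝ))) ≤ r / 16 := by
    rw [mul_one_div, div_le_div_iff₀ (by positivity) (by norm_num)]
    linarith
  have e3 : ∀ s i, |(X.q0 s i : ℝ) / N| ≤ r / 16 := by
    intro s i
    rw [abs_div, abs_of_pos hN0, div_le_iff₀ hN0]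
    linarith [hQ s i]
  have hMp : 0 < M := by linarith
  set V : ℝ := ∑ s, v0 (X.α s) with hV
  set EE : ℝ := Real.exp (N * (V + c * e - c2)) with hEE
  have hEE0 : 0 < EE := Real.exp_pos _
  have hce : 0 ≤ (c : ℝ) * e := by positivity
  -- the lattice points
  set a : Fin d → ℤ := fun j => ⌈(N : ℝ) * (X.τ j - δ)⌉ with ha
  set b : Fin d → ℤ := fun j => ⌊(N : ℝ) * (X.τ j + δ)⌋ with hb
  set NE : Finset (Fin d → ℤ) := Fintype.piFinset fun j => Icc (a j) (b j) with hNE
  set BX : Finset (Fin d → ℤ) := Fintype.piFinset fun _ => Icc (-((B * N : ℕ) : ℤ)) ((B * N : ℕ) : ℤ)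
    with hBX
  set S : Finset (Fin d → ℤ) := BX ∪ NE with hS
  set f : (Fin d → ℤ) → ℂ := fun t => ∏ s, Z s (X.q N t s) with hf
  have hnot : ∀ t, (¬ ∀ s, Ps N (X.q N t s)) → f t = 0 := by
    intro t ht
    obtain ⟨s, hs⟩ := not_forall.1 ht
    exact Finset.prod_eq_zero (Finset.mem_univ s) (hZ0 s _ hs)
  have hts : ∑' t : Fin d → ℤ, f t = ∑ t ∈ S, f t := by
    refine tsum_eq_sum fun t ht => hnot t fun hP => ht ?_
    refine Finset.mem_union_left _ ?_
    rw [hBX, Fintype.mem_piFinset]
    intro j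
    have := abs_le.1 (hbox N hN1 t hP j)
    exact Finset.mem_Icc.2 this
  have hsd : ∑ t ∈ S \ NE, f t + ∑ t ∈ NE, f t = ∑ t ∈ S, f t :=
    Finset.sum_sdiff Finset.subset_union_right
  have hcardS : ((S \ NE).card : ℝ) ≤ (3 * B * N) ^ d := by
    have h1 : (S \ NE).card ≤ BX.card := by
      refine Finset.card_le_card fun t ht => ?_
      rw [Finset.mem_sdiff, Finset.mem_union] at ht
      exact ht.1.resolve_right ht.2
    have h2 : BX.card = (2 * (B * N) + 1) ^ d := by
      rw [hBX, Fintype.card_piFinset]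
      simp only [Int.card_Icc, Finset.prod_const, Finset.card_univ, Fintype.card_fin]
      congr 1
      omega
    have h3 : 1 ≤ B * N := Nat.mul_pos hB1 hN1
    calc ((S \ NE).card : ℝ) ≤ ((2 * (B * N) + 1) ^ d : ℕ) := by
          rw [← h2]
          exact_mod_cast h1
      _ ≤ ((3 * (B * N)) ^ d : ℕ) := by
          exact_mod_cast Nat.pow_le_pow_left (by omega) d
      _ = (3 * B * N) ^ d := by
          push_cast
          ring
  have hcardN : (NE.card : ℝ) ≤ (3 * N) ^ d := by
    rw [hNE, Fintype.card_piFinset]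
    push_cast
    calc ∏ j, ((Icc (a j) (b j)).card : ℝ) ≤ ∏ _j : Fin d, (3 * (N : ℝ)) := by
          refine Finset.prod_le_prod (fun _ _ => Nat.cast_nonneg _) fun j _ => ?_
          rw [Int.card_Icc]
          have h1 : (N : ℝ) * (X.τ j - δ) ≤ a j := Int.le_ceil _
          have h2 : (b j : ℝ) ≤ N * (X.τ j + δ) := Int.floor_le _
          rcases le_or_gt 0 (b j + 1 - a j) with h3 | h3
          · have h4 : (((b j + 1 - a j).toNat : ℕ) : ℝ) = (b j : ℝ) + 1 - a j := by
              have h5 : (((b j + 1 - a j).toNat : ℕ) : ℤ) = b j + 1 - a j := Int.toNat_of_nonneg h3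
              have h6 : (((((b j + 1 - a j).toNat : ℕ) : ℤ)) : ℝ) = ((b j + 1 - a j : ℤ) : ℝ) := by
                rw [h5]
              push_cast at h6
              exact h6
            rw [h4]
            nlinarith
          · rw [Int.toNat_of_nonpos h3.le]
            simp
      _ = (3 * N) ^ d := by simp
  -- real points
  have hqre : ∀ t : Fin d → ℤ, ∀ s, (fun i => (X.q N t s i : ℝ) / N) =
      qR X N (fun j => (t j : ℝ) / N) s := by
    intro t s
    funext i
    exact qR_int X hN1 t s i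
  -- far points
  have hMc : 1 ≤ M ^ c := one_le_pow₀ hM
  have hMc1 : M ≤ M ^ (c + 1) := by
    rw [pow_succ]
    exact le_mul_of_one_le_left hMp.le hMc
  have hMcc : M ^ c ≤ M ^ (c + 1) := by
    rw [pow_succ]
    exact le_mul_of_one_le_right (by positivity) hM
  have hfar : ‖∑ t ∈ S \ NE, f t‖ ≤ (3 * B * N) ^ d * (M ^ (c + 1) * Real.exp m1 * EE) := by
    refine (norm_sum_le _ _).trans ?_
    have h1 : ∀ t ∈ S \ NE, ‖f t‖ ≤ M ^ (c + 1) * Real.exp m1 * EE := by
      intro t ht
      have h4 : ∃ j, δ < |(t j : ℝ) / N - X.τ j| := by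
        rw [Finset.mem_sdiff] at ht
        have h5 := ht.2
        rw [hNE, Fintype.mem_piFinset, not_forall] at h5
        obtain ⟨j, hj⟩ := h5
        refine ⟨j, ?_⟩
        rw [Finset.mem_Icc, not_and_or, not_le, not_le] at hj
        rcases hj with hj | hj
        · rw [ha] at hj
          have h6 := Int.lt_ceil.1 hj
          have h7 : (t j : ℝ) / N < X.τ j - δ := by
            rw [div_lt_iff₀ hN0]
            linarith
          rw [abs_of_neg (by linarith)]
          linarith
        · rw [hb] at hj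
          have h6 := Int.floor_lt.1 hj
          have h7 : X.τ j + δ < (t j : ℝ) / N := by
            rw [lt_div_iff₀ hN0]
            linarith
          rw [abs_of_pos (by linarith)]
          linarith
      refine (hFr t h4).trans ?_
      rw [mul_assoc]
      refine mul_le_mul hMc1 ?_ (Real.exp_pos _).le (by positivity)
      rw [hEE, ← Real.exp_add]
      refine Real.exp_le_exp.2 ?_
      have h9 := mul_le_mul_of_nonneg_left hc2d hN0.le
      have h10 : 0 ≤ (N : ℝ) * (c * e) := by positivity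
      linarith
    refine (Finset.sum_le_sum h1).trans ?_
    rw [Finset.sum_const, nsmul_eq_mul]
    exact mul_le_mul_of_nonneg_right hcardS (by positivity)
  -- near points
  have hnear : ‖∑ t ∈ NE, f t - ∑ t ∈ NE, ∏ s, F s (X.xN N (fun j => (t j : ℂ) / N) s)‖ ≤
      (3 * N) ^ d * ((c * 2 ^ c) * (M ^ c * Real.exp m1 * EE)) := by
    rw [← Finset.sum_sub_distrib]
    refine (norm_sum_le _ _).trans ?_
    have h1 : ∀ t ∈ NE, ‖f t - ∏ s, F s (X.xN N (fun j => (t j : ℂ) / N) s)‖ ≤
        (c * 2 ^ c) * (M ^ c * Real.exp m1 * EE) := by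
      intro t ht
      have hclose : ∀ j, |(t j : ℝ) / N - X.τ j| ≤ δ := by
        intro j
        rw [hNE, Fintype.mem_piFinset] at ht
        have h2 := Finset.mem_Icc.1 (ht j)
        have h3 := Int.ceil_le.1 h2.1
        have h4 := Int.le_floor.1 h2.2
        rw [abs_le]
        constructor
        · have : X.τ j - δ ≤ (t j : ℝ) / N := by
            rw [le_div_iff₀ hN0]
            linarith
          linarith
        · have : (t j : ℝ) / N ≤ X.τ j + δ := by
            rw [div_le_iff₀ hN0]
            linarith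
          linarith
      have hq4 : ∀ s i, |(X.q N t s i : ℝ) / N - qc (X.α s) i| ≤ r / 4 := by
        intro s i
        rw [qR_int X hN1, qR_sub X hX]
        have h2 := latR_abs X (fun j => (t j : ℝ) / N - X.τ j) hδ.le hclose s i
        have h3 := e3 s i
        refine (abs_sub _ _).trans ?_
        linarith
      have h2 := prod_diff (Finset.univ : Finset (Fin c)) (fun s => Z s (X.q N t s))
        (fun s => F s (fun i => (X.q N t s i : ℂ) / N))
        (fun s => 2 * M * Real.exp (N * (v0 (X.α s) + e +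
          mR (X.α s) (qR X N (fun j => (t j : ℝ) / N) s))))
        (D := Real.exp (-(N * c1))) (Real.exp_pos _).le (fun s _ => by
          have hd := hZF s (X.q N t s) (q_compat X hX N t s) (hq4 s)
          have h4 : N * (v0 (X.α s) + mR (X.α s) (fun i => (X.q N t s i : ℝ) / N) - c1) =
              -(N * c1) + N * (v0 (X.α s) + mR (X.α s) (qR X N (fun j => (t j : ℝ) / N) s)) := by
            rw [hqre]
            ring
          rw [h4, Real.exp_add] at hd
          set P : ℝ := Real.exp (N * (v0 (X.α s) + mR (X.α s) (qR X N (fun j => (t j : ℝ) / N) s)))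
            with hP
          set P' : ℝ := Real.exp (N * (v0 (X.α s) + e +
            mR (X.α s) (qR X N (fun j => (t j : ℝ) / N) s))) with hP'
          have hPP : P ≤ P' := by
            rw [hP, hP']
            refine Real.exp_le_exp.2 (mul_le_mul_of_nonneg_left ?_ hN0.le)
            linarith
          have hP0 : 0 < P := Real.exp_pos _
          have hP0' : 0 < P' := Real.exp_pos _
          have hD1 : Real.exp (-(N * c1)) ≤ 1 := by
            rw [Real.exp_le_one_iff]
            have : 0 < N * c1 := by positivity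
            linarith
          have hD0 : 0 < Real.exp (-(N * c1)) := Real.exp_pos _
          have hre : re3 (fun i => (X.q N t s i : ℂ) / N) = qR X N (fun j => (t j : ℝ) / N) s := by
            rw [← hqre]
            funext i
            show ((X.q N t s i : ℂ) / N).re = _
            have : ((X.q N t s i : ℂ) / N) = (((X.q N t s i : ℝ) / N : ℝ) : ℂ) := by
              push_cast
              rfl
            rw [this, Complex.ofReal_re]
          have him : ∀ i, ((X.q N t s i : ℂ) / N).im = 0 := by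
            intro i
            have : ((X.q N t s i : ℂ) / N) = (((X.q N t s i : ℝ) / N : ℝ) : ℂ) := by
              push_cast
              rfl
            rw [this, Complex.ofReal_im]
          have hball : (fun i => (X.q N t s i : ℂ) / N) ∈ Metric.ball (qC (X.α s)) (r / 2) := by
            rw [Metric.mem_ball, dist_eq_norm, pi_norm_lt_iff (by positivity)]
            intro i
            have h5 : ((fun i => (X.q N t s i : ℂ) / N) - qC (X.α s)) i =
                (((X.q N t s i : ℝ) / N - qc (X.α s) i : ℝ) : ℂ) := by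
              rw [Pi.sub_apply]
              unfold qC
              push_cast
              rfl
            rw [h5, Complex.norm_real, Real.norm_eq_abs]
            have := hq4 s i
            linarith
          have hf1 := hF s (fun i => (X.q N t s i : ℂ) / N) hball (fun i hi => by
            show (X.q N t s i : ℂ) / N = 0
            rw [q_compat X hX N t s i hi, Int.cast_zero, zero_div])
          have hf2 : ‖F s (fun i => (X.q N t s i : ℂ) / N)‖ ≤ M * P' := by
            refine hf1.trans (mul_le_mul_of_nonneg_left ?_ hMp.le)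
            rw [hP', hre]
            refine Real.exp_le_exp.2 (mul_le_mul_of_nonneg_left ?_ hN0.le)
            simp only [him]
            have : 0 ≤ κ * sR (X.α s) (qR X N (fun j => (t j : ℝ) / N) s) :=
              mul_nonneg hκ.le (Finset.sum_nonneg fun _ _ => sq_nonneg _)
            simp only [ne_eq, OfNat.ofNat_ne_zero, not_false_eq_true, zero_pow,
              Finset.sum_const_zero, mul_zero, add_zero]
            linarith
          have hd' : ‖Z s (X.q N t s) - F s (fun i => (X.q N t s i : ℂ) / N)‖ ≤ M * P' := by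
            refine hd.trans (mul_le_mul_of_nonneg_left ?_ hMp.le)
            exact (mul_le_of_le_one_left hP0.le hD1).trans hPP
          refine ⟨?_, ?_, ?_⟩
          · have h5 : Z s (X.q N t s) = F s (fun i => (X.q N t s i : ℂ) / N) +
                (Z s (X.q N t s) - F s (fun i => (X.q N t s i : ℂ) / N)) := by ring
            rw [h5]
            refine (norm_add_le _ _).trans ?_
            linarith
          · have : 0 ≤ M * P' := by positivity
            linarith
          · refine hd.trans ?_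
            have h6 : M * (Real.exp (-(N * c1)) * P) ≤ M * (Real.exp (-(N * c1)) * P') :=
              mul_le_mul_of_nonneg_left (mul_le_mul_of_nonneg_left hPP hD0.le) hMp.le
            have : 0 ≤ M * (Real.exp (-(N * c1)) * P') := by positivity
            linarith)
      have h3 : ∀ s, X.xN N (fun j => (t j : ℂ) / N) s = fun i => (X.q N t s i : ℂ) / N :=
        fun s => xN_int X hN1 t s
      simp only [h3]
      refine h2.trans ?_
      rw [Finset.card_univ, Fintype.card_fin, Finset.prod_mul_distrib, Finset.prod_const,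
        Finset.card_univ, Fintype.card_fin, ← Real.exp_sum, mul_pow]
      have h5 : ∑ s, (N : ℝ) * (v0 (X.α s) + e +
          mR (X.α s) (qR X N (fun j => (t j : ℝ) / N) s)) = N * (V + c * e) + -m0 X := by
        rw [← Finset.mul_sum, Finset.sum_add_distrib, sum_mR X hX, mul_add,
          Finset.sum_add_distrib, Finset.sum_const, Finset.card_univ, Fintype.card_fin,
          nsmul_eq_mul]
        congr 1
        field_simp
      rw [h5]
      have h6 : Real.exp (-(N * c1)) * Real.exp (N * (V + c * e) + -m0 X) ≤ Real.exp m1 * EE := by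
        rw [hEE, ← Real.exp_add, ← Real.exp_add]
        refine Real.exp_le_exp.2 ?_
        have h7 := mul_le_mul_of_nonneg_left hc2c hN0.le
        have h8 : 0 ≤ (N : ℝ) * (c * e) := by positivity
        have h9 := neg_le_abs (m0 X)
        have h10 : 0 ≤ κ * Q0 X := mul_nonneg hκ.le (Q0_nonneg X)
        rw [hm1]
        linarith
      calc (c : ℝ) * Real.exp (-(N * c1)) * (2 ^ c * M ^ c * Real.exp (N * (V + c * e) + -m0 X))
          = (c * 2 ^ c) * (M ^ c * (Real.exp (-(N * c1)) * Real.exp (N * (V + c * e) + -m0 X))) := by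
            ring
        _ ≤ (c * 2 ^ c) * (M ^ c * (Real.exp m1 * EE)) := by
            refine mul_le_mul_of_nonneg_left (mul_le_mul_of_nonneg_left h6 (by positivity))
              (by positivity)
        _ = (c * 2 ^ c) * (M ^ c * Real.exp m1 * EE) := by ring
    refine (Finset.sum_le_sum h1).trans ?_
    rw [Finset.sum_const, nsmul_eq_mul]
    exact mul_le_mul_of_nonneg_right hcardN (by positivity)
  -- the integral
  have hab : ∀ j, a j ≤ b j := by
    intro j
    rw [ha, hb]
    simp only
    rw [Int.le_floor]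
    have h1 : (⌈(N : ℝ) * (X.τ j - δ)⌉ : ℝ) < N * (X.τ j - δ) + 1 := Int.ceil_lt_add_one _
    nlinarith
  have hlen : ∀ j, (b j : ℝ) - a j + 1 ≤ 3 * N := by
    intro j
    have h1 : (N : ℝ) * (X.τ j - δ) ≤ a j := Int.le_ceil _
    have h2 : (b j : ℝ) ≤ N * (X.τ j + δ) := Int.floor_le _
    nlinarith
  have hPRre : ∀ T ∈ PR N a b τ1, ∀ j, |(T j).re - X.τ j| ≤ δ + 1 / (2 * N) := by
    intro T hT j
    obtain ⟨h1, h2⟩ := (hT j).1
    unfold lo at h1
    unfold hi at h2
    have h3 : (N : ℝ) * (X.τ j - δ) ≤ a j := Int.le_ceil _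
    have h4 : (b j : ℝ) ≤ N * (X.τ j + δ) := Int.floor_le _
    have h5 : X.τ j - δ - 1 / (2 * N) ≤ ((a j : ℝ) - 1 / 2) / N := by
      rw [le_div_iff₀ hN0]
      have : (X.τ j - δ - 1 / (2 * (N : ℝ))) * N = N * (X.τ j - δ) - 1 / 2 := by field_simp
      rw [this]
      linarith
    have h6 : ((b j : ℝ) + 1 / 2) / N ≤ X.τ j + δ + 1 / (2 * N) := by
      rw [div_le_iff₀ hN0]
      have : (X.τ j + δ + 1 / (2 * (N : ℝ))) * N = N * (X.τ j + δ) + 1 / 2 := by field_simp
      rw [this]
      linarith
    rw [abs_le]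
    constructor <;> linarith
  have hPRU : PR N a b τ1 ⊆ {T | ∀ s, X.xN N T s ∈ Metric.ball (qC (X.α s)) (r / 2)} := by
    intro T hT s
    rw [Metric.mem_ball, dist_eq_norm, pi_norm_lt_iff (by positivity)]
    intro i
    have h1 : ‖(X.xN N T s - qC (X.α s)) i‖ ≤
        |((X.xN N T s - qC (X.α s)) i).re| + |((X.xN N T s - qC (X.α s)) i).im| :=
      Complex.norm_le_abs_re_add_abs_im _
    have h2 : ((X.xN N T s - qC (X.α s)) i).re = latR X (fun j => (T j).re - X.τ j) s i -
        X.q0 s i / N := by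
      rw [Pi.sub_apply, Complex.sub_re, xN_re]
      unfold qC
      rw [Complex.ofReal_re, qR_sub X hX]
    have h3 : ((X.xN N T s - qC (X.α s)) i).im = latR X (fun j => (T j).im) s i := by
      rw [Pi.sub_apply, Complex.sub_im, xN_im]
      unfold qC
      rw [Complex.ofReal_im, sub_zero]
    rw [h2, h3] at h1
    have h4 := latR_abs X (fun j => (T j).re - X.τ j) (a := δ + 1 / (2 * N)) (by positivity)
      (hPRre T hT) s i
    have h5 := latR_abs X (fun j => (T j).im) hτ0.le (fun j => (hT j).2) s i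
    have h6 := abs_sub (latR X (fun j => (T j).re - X.τ j) s i) ((X.q0 s i : ℝ) / N)
    have h7 := e3 s i
    rw [mul_add] at h4
    linarith
  have hbound : ∀ T ∈ PR N a b τ1, ‖∏ s, F s (X.xN N T s)‖ ≤ M ^ c * Real.exp (N * (V + c * e -
      κ * κ1 / 2 * ∑ j, ((T j).re - X.τ j) ^ 2 + K * (3 * c * ME X ^ 2) * τ1 ^ 2) + m1) := by
    intro T hT
    have h2 := prod_exp_le (f := fun s => F s (X.xN N T s)) fun s =>
      hF s (X.xN N T s) (hPRU hT s) (xN_compat X hX N T s)
    refine h2.trans (mul_le_mul_of_nonneg_left ?_ (by positivity))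
    refine Real.exp_le_exp.2 ?_
    have h3 := expo_le X hX hκ.le hlat hN1 fun j => (T j).re
    have h4 : ∀ s, re3 (X.xN N T s) = qR X N (fun j => (T j).re) s := by
      intro s
      funext i
      exact xN_re X N T s i
    simp only [h4]
    have h5 : ∑ s, (N : ℝ) * (v0 (X.α s) + e + mR (X.α s) (qR X N (fun j => (T j).re) s) -
        κ * sR (X.α s) (qR X N (fun j => (T j).re) s) + K * ∑ i, (X.xN N T s i).im ^ 2) =
        N * (V + c * e) + N * ∑ s, (mR (X.α s) (qR X N (fun j => (T j).re) s) -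
        κ * sR (X.α s) (qR X N (fun j => (T j).re) s)) + N * (K * ∑ s, ∑ i, (X.xN N T s i).im ^ 2) := by
      have h6 : (c : ℝ) * e = ∑ _s : Fin c, e := by simp
      rw [hV, h6, ← Finset.sum_add_distrib, ← mul_add, ← mul_add, ← Finset.sum_add_distrib,
        Finset.mul_sum (a := K), ← Finset.sum_add_distrib, ← Finset.mul_sum]
      congr 1
      refine Finset.sum_congr rfl fun s _ => ?_
      ring
    rw [h5]
    have h6 : ∑ s, ∑ i, (X.xN N T s i).im ^ 2 ≤ 3 * c * ME X ^ 2 * τ1 ^ 2 := by
      calc ∑ s, ∑ i, (X.xN N T s i).im ^ 2 ≤ ∑ _s : Fin c, ∑ _i : Fin 3, (ME X * τ1) ^ 2 := by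
            refine Finset.sum_le_sum fun s _ => Finset.sum_le_sum fun i _ => ?_
            rw [xN_im, ← sq_abs]
            exact pow_le_pow_left₀ (abs_nonneg _)
              (latR_abs X (fun j => (T j).im) hτ0.le (fun j => (hT j).2) s i) 2
        _ = 3 * c * ME X ^ 2 * τ1 ^ 2 := by
            simp only [Finset.sum_const, Finset.card_univ, Fintype.card_fin, nsmul_eq_mul]
            push_cast
            ring
    have h7 := mul_le_mul_of_nonneg_left (mul_le_mul_of_nonneg_left h6 hK.le) hN0.le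
    rw [hm1]
    have h8 : (N : ℝ) * (K * (3 * c * ME X ^ 2 * τ1 ^ 2)) = N * (K * (3 * c * ME X ^ 2) * τ1 ^ 2) := by
      ring
    rw [h8] at h7
    linarith
  have hmp := hMP N hN1 a b hab (fun T => ∏ s, F s (X.xN N T s))
    {T | ∀ s, X.xN N T s ∈ Metric.ball (qC (X.α s)) (r / 2)} τ1
    (M ^ c * Real.exp (N * (V + c * e + K * (3 * c * ME X ^ 2) * τ1 ^ 2) + m1))
    (M ^ c * Real.exp (N * (V + c * e - κ * κ1 * δ ^ 2 / 8 + K * (3 * c * ME X ^ 2) * τ1 ^ 2) + m1))
    3 η (U_open X N (r / 2)) (LD_prod X F hLD N) hPRU g2 hτa hη (by norm_num) hlen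
    (fun T hT => by
      refine (hbound T hT).trans (mul_le_mul_of_nonneg_left (Real.exp_le_exp.2 ?_) (by positivity))
      have h1 : 0 ≤ κ * κ1 / 2 * ∑ j, ((T j).re - X.τ j) ^ 2 := by
        have : 0 ≤ ∑ j, ((T j).re - X.τ j) ^ 2 := Finset.sum_nonneg fun _ _ => sq_nonneg _
        positivity
      have h2 : 0 ≤ N * (κ * κ1 / 2 * ∑ j, ((T j).re - X.τ j) ^ 2) := by positivity
      linarith)
    (fun T hT hbd => by
      refine (hbound T hT).trans (mul_le_mul_of_nonneg_left (Real.exp_le_exp.2 ?_) (by positivity))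
      obtain ⟨j, hj⟩ := hbd
      have h1 : δ / 2 ≤ |(T j).re - X.τ j| := by
        rcases hj with hj | hj
        · rw [hj]
          unfold lo
          have h3 : (a j : ℝ) < N * (X.τ j - δ) + 1 := Int.ceil_lt_add_one _
          have h4 : ((a j : ℝ) - 1 / 2) / N ≤ X.τ j - δ + 1 / (2 * N) := by
            rw [div_le_iff₀ hN0]
            have : (X.τ j - δ + 1 / (2 * (N : ℝ))) * N = N * (X.τ j - δ) + 1 / 2 := by field_simp
            rw [this]
            linarith
          rw [abs_sub_comm]
          refine le_trans ?_ (le_abs_self _)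
          linarith
        · rw [hj]
          unfold hi
          have h3 : (N : ℝ) * (X.τ j + δ) < b j + 1 := Int.lt_floor_add_one _
          have h4 : X.τ j + δ - 1 / (2 * N) ≤ ((b j : ℝ) + 1 / 2) / N := by
            rw [le_div_iff₀ hN0]
            have : (X.τ j + δ - 1 / (2 * (N : ℝ))) * N = N * (X.τ j + δ) - 1 / 2 := by field_simp
            rw [this]
            linarith
          refine le_trans ?_ (le_abs_self _)
          linarith
      have h2 := sq_lower X (y := fun j => (T j).re) (a := δ / 2) (by positivity) j h1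
      have h3 : κ * κ1 / 2 * (δ / 2) ^ 2 ≤ κ * κ1 / 2 * ∑ j, ((T j).re - X.τ j) ^ 2 :=
        mul_le_mul_of_nonneg_left h2 (by positivity)
      have h4 := mul_le_mul_of_nonneg_left h3 hN0.le
      have h5 : (N : ℝ) * (κ * κ1 / 2 * (δ / 2) ^ 2) = N * (κ * κ1 * δ ^ 2 / 8) := by ring
      linarith)
  -- the final estimate
  have hA : Real.exp (-(2 * Real.pi * τ1 * N)) * (M ^ c * Real.exp (N * (V + c * e +
      K * (3 * c * ME X ^ 2) * τ1 ^ 2) + m1)) ≤ M ^ c * Real.exp m1 * EE := by
    calc Real.exp (-(2 * Real.pi * τ1 * N)) * (M ^ c * Real.exp (N * (V + c * e +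
          K * (3 * c * ME X ^ 2) * τ1 ^ 2) + m1))
        = M ^ c * (Real.exp (-(2 * Real.pi * τ1 * N)) * Real.exp (N * (V + c * e +
          K * (3 * c * ME X ^ 2) * τ1 ^ 2) + m1)) := by ring
      _ ≤ M ^ c * (Real.exp m1 * EE) := by
          refine mul_le_mul_of_nonneg_left ?_ (by positivity)
          rw [hEE, ← Real.exp_add, ← Real.exp_add]
          refine Real.exp_le_exp.2 ?_
          have h1 := mul_le_mul_of_nonneg_left hτc hN0.le
          have h2 := mul_le_mul_of_nonneg_left hc2a hN0.le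
          linarith
      _ = M ^ c * Real.exp m1 * EE := by ring
  have hBB : M ^ c * Real.exp (N * (V + c * e - κ * κ1 * δ ^ 2 / 8 +
      K * (3 * c * ME X ^ 2) * τ1 ^ 2) + m1) ≤ M ^ c * Real.exp m1 * EE := by
    rw [mul_assoc (M ^ c)]
    refine mul_le_mul_of_nonneg_left ?_ (by positivity)
    rw [hEE, ← Real.exp_add]
    refine Real.exp_le_exp.2 ?_
    have h1 := mul_le_mul_of_nonneg_left hτd hN0.le
    have h2 := mul_le_mul_of_nonneg_left hc2b hN0.le
    linarith
  have hfin : ‖∑ t ∈ NE, ∏ s, F s (X.xN N (fun j => (t j : ℂ) / N) s) - N ^ d *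
      ∫ x in X.bx δ N, ∏ s, F s (X.xN N (fun j => x j + η j * Complex.I) s)‖ ≤
      CM * (3 * N) ^ d * (2 * (M ^ c * Real.exp m1 * EE)) := by
    refine hmp.trans ?_
    refine mul_le_mul_of_nonneg_left ?_ (by positivity)
    linarith
  rw [hts, ← hsd]
  have hsplit : ∑ t ∈ S \ NE, f t + ∑ t ∈ NE, f t - N ^ d *
      ∫ x in X.bx δ N, ∏ s, F s (X.xN N (fun j => x j + η j * Complex.I) s) =
      ∑ t ∈ S \ NE, f t + (∑ t ∈ NE, f t - ∑ t ∈ NE, ∏ s, F s (X.xN N (fun j => (t j : ℂ) / N) s)) +
      (∑ t ∈ NE, ∏ s, F s (X.xN N (fun j => (t j : ℂ) / N) s) - N ^ d *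
      ∫ x in X.bx δ N, ∏ s, F s (X.xN N (fun j => x j + η j * Complex.I) s)) := by ring
  rw [hsplit]
  refine (norm_add₃_le).trans ?_
  have hnear' : ‖∑ t ∈ NE, f t - ∑ t ∈ NE, ∏ s, F s (X.xN N (fun j => (t j : ℂ) / N) s)‖ ≤
      (3 * N) ^ d * ((c * 2 ^ c) * (M ^ (c + 1) * Real.exp m1 * EE)) := by
    refine hnear.trans ?_
    gcongr
  have hfin' : ‖∑ t ∈ NE, ∏ s, F s (X.xN N (fun j => (t j : ℂ) / N) s) - N ^ d *
      ∫ x in X.bx δ N, ∏ s, F s (X.xN N (fun j => x j + η j * Complex.I) s)‖ ≤
      CM * (3 * N) ^ d * (2 * (M ^ (c + 1) * Real.exp m1 * EE)) := by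
    refine hfin.trans ?_
    gcongr
  refine (add_le_add (add_le_add hfar hnear') hfin').trans (le_of_eq ?_)
  rw [hEE]
  ring

end Pool.Agent.Q210.HU
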