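import Pool.Agent.Q99.HU.Stm1
import Pool.Agent.Q299.HT.NW0

/-!
# Project HU, job NW0b: the corners of the lattice points, without acute angles

Proof by helper210, after the proof of helper299 for the project HT.
-/

set_option autoImplicit false

namespace Pool.Agent.Q210.HU

open Finset Filter Topology MeasureTheory
open Pool.Agent.Q99.HT
open Pool.Agent.Q299.HT (prod_diff latR qR qR_int xN_int xN_re xN_im latR_abs m0 Q0 Q0_nonneg LD_prod
  U_open sq_lower prod_exp_le ME ME_one sum_E_le)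

section
variable {c d : ℕ} (X : Nw c d)

theorem lat_lower (hX : X.Okb) : ∃ κ1 : ℝ, 0 < κ1 ∧ κ1 ≤ 1 ∧ ∀ t : Fin d → ℝ,
    κ1 * ∑ j, t j ^ 2 ≤ ∑ s, ∑ i, latR X t s i ^ 2 := by
  classical
  let f : (Fin d → ℝ) →ₗ[ℝ] (Fin c → Fin 3 → ℝ) :=
    { toFun := fun t => latR X t
      map_add' := by
        intro a b
        funext s i
        simp only [latR, Pi.add_apply, add_mul, Finset.sum_add_distrib]
      map_smul' := by
        intro a b
        funext s i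
        simp only [latR, Pi.smul_apply, smul_eq_mul, RingHom.id_apply, Finset.mul_sum, mul_assoc] }
  have hinj : LinearMap.ker f = ⊥ := by
    rw [LinearMap.ker_eq_bot']
    intro t ht
    refine hX.inj t fun s i => ?_
    have := congrFun (congrFun ht s) i
    exact this
  obtain ⟨Kc, hK0, hK⟩ := f.exists_antilipschitzWith hinj
  have hKr : (0 : ℝ) < Kc := by exact_mod_cast hK0
  have key : ∀ t : Fin d → ℝ, ‖t‖ ≤ Kc * ‖f t‖ := by
    intro t
    have := hK.le_mul_dist t 0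
    rw [map_zero, dist_zero_right, dist_zero_right] at this
    exact this
  have hS : ∀ t : Fin d → ℝ, ‖f t‖ ^ 2 ≤ ∑ s, ∑ i, latR X t s i ^ 2 := by
    intro t
    have h0 : 0 ≤ ∑ s, ∑ i, latR X t s i ^ 2 :=
      Finset.sum_nonneg fun _ _ => Finset.sum_nonneg fun _ _ => sq_nonneg _
    have h1 : ‖f t‖ ≤ √(∑ s, ∑ i, latR X t s i ^ 2) := by
      rw [pi_norm_le_iff_of_nonneg (Real.sqrt_nonneg _)]
      intro s
      rw [pi_norm_le_iff_of_nonneg (Real.sqrt_nonneg _)]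
      intro i
      show |latR X t s i| ≤ _
      refine Real.abs_le_sqrt ?_
      refine (Finset.single_le_sum (f := fun i => latR X t s i ^ 2) (fun _ _ => sq_nonneg _)
        (Finset.mem_univ i)).trans ?_
      exact Finset.single_le_sum (f := fun s => ∑ i, latR X t s i ^ 2)
        (fun _ _ => Finset.sum_nonneg fun _ _ => sq_nonneg _) (Finset.mem_univ s)
    calc ‖f t‖ ^ 2 ≤ √(∑ s, ∑ i, latR X t s i ^ 2) ^ 2 := pow_le_pow_left₀ (norm_nonneg _) h1 2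
      _ = _ := Real.sq_sqrt h0
  refine ⟨1 / (1 + d * Kc ^ 2), by positivity, ?_, fun t => ?_⟩
  · rw [div_le_one (by positivity)]
    have : 0 ≤ (d : ℝ) * Kc ^ 2 := by positivity
    linarith
  have h0 : 0 ≤ ∑ s, ∑ i, latR X t s i ^ 2 :=
    Finset.sum_nonneg fun _ _ => Finset.sum_nonneg fun _ _ => sq_nonneg _
  have h1 : ∑ j, t j ^ 2 ≤ d * ‖t‖ ^ 2 := by
    calc ∑ j, t j ^ 2 ≤ ∑ _j : Fin d, ‖t‖ ^ 2 := by
          refine Finset.sum_le_sum fun j _ => ?_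
          rw [← sq_abs]
          exact pow_le_pow_left₀ (abs_nonneg _) (norm_le_pi_norm t j) 2
      _ = d * ‖t‖ ^ 2 := by simp
  have h2 : ‖t‖ ^ 2 ≤ Kc ^ 2 * ‖f t‖ ^ 2 := by
    rw [← mul_pow]
    exact pow_le_pow_left₀ (norm_nonneg _) (key t) 2
  rw [div_mul_eq_mul_div, one_mul, div_le_iff₀ (by positivity)]
  calc ∑ j, t j ^ 2 ≤ d * (Kc ^ 2 * ‖f t‖ ^ 2) := h1.trans (mul_le_mul_of_nonneg_left h2 (by positivity))
    _ ≤ d * (Kc ^ 2 * ∑ s, ∑ i, latR X t s i ^ 2) := by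
        refine mul_le_mul_of_nonneg_left (mul_le_mul_of_nonneg_left (hS t) (by positivity))
          (by positivity)
    _ ≤ (∑ s, ∑ i, latR X t s i ^ 2) * (1 + d * Kc ^ 2) := by linarith

theorem qR_sub (hX : X.Okb) (N : ℕ) (y : Fin d → ℝ) (s : Fin c) (i : Fin 3) :
    qR X N y s i - qc (X.α s) i = latR X (fun j => y j - X.τ j) s i - X.q0 s i / N := by
  unfold qR latR
  rw [hX.ctr s i]
  simp only [sub_mul, Finset.sum_sub_distrib]
  ring

theorem sum_mR (hX : X.Okb) (N : ℕ) (y : Fin d → ℝ) :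
    ∑ s, mR (X.α s) (qR X N y s) = -(m0 X / N) := by
  unfold mR m0
  have h1 : ∀ s, ∑ i, ml (X.α s) i * (qR X N y s i - qc (X.α s) i) =
      ∑ j, (y j - X.τ j) * ∑ i, ml (X.α s) i * X.E j s i - (∑ i, ml (X.α s) i * X.q0 s i) / N := by
    intro s
    have h2 : ∀ i, ml (X.α s) i * (qR X N y s i - qc (X.α s) i) =
        ∑ j, (y j - X.τ j) * (ml (X.α s) i * X.E j s i) - ml (X.α s) i * X.q0 s i / N := by
      intro i
      rw [qR_sub X hX]
      unfold latR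
      rw [mul_sub, Finset.mul_sum]
      congr 1
      · refine Finset.sum_congr rfl fun j _ => ?_
        ring
      · ring
    simp only [h2]
    rw [Finset.sum_sub_distrib, Finset.sum_comm, Finset.sum_div]
    congr 1
    refine Finset.sum_congr rfl fun j _ => ?_
    rw [Finset.mul_sum]
  simp only [h1]
  rw [Finset.sum_sub_distrib, Finset.sum_comm, ← Finset.sum_div]
  have h3 : ∑ j, ∑ s, (y j - X.τ j) * ∑ i, ml (X.α s) i * X.E j s i = 0 := by
    refine Finset.sum_eq_zero fun j _ => ?_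
    rw [← Finset.mul_sum, hX.crit j, mul_zero]
  rw [h3, zero_sub]

theorem sum_sR (hX : X.Okb) {κ1 : ℝ}
    (hlat : ∀ t : Fin d → ℝ, κ1 * ∑ j, t j ^ 2 ≤ ∑ s, ∑ i, latR X t s i ^ 2) (N : ℕ)
    (y : Fin d → ℝ) : κ1 / 2 * ∑ j, (y j - X.τ j) ^ 2 - Q0 X / N ^ 2 ≤
      ∑ s, sR (X.α s) (qR X N y s) := by
  unfold sR Q0
  have h1 : ∀ s i, latR X (fun j => y j - X.τ j) s i ^ 2 / 2 - (X.q0 s i : ℝ) ^ 2 / N ^ 2 ≤
      (qR X N y s i - qc (X.α s) i) ^ 2 := by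
    intro s i
    rw [qR_sub X hX]
    have h2 := sq_nonneg (latR X (fun j => y j - X.τ j) s i - 2 * (X.q0 s i / N))
    have h3 : (X.q0 s i : ℝ) ^ 2 / N ^ 2 = (X.q0 s i / N) ^ 2 := by rw [div_pow]
    rw [h3]
    nlinarith
  have h2 : ∑ s, ∑ i, (latR X (fun j => y j - X.τ j) s i ^ 2 / 2 - (X.q0 s i : ℝ) ^ 2 / N ^ 2) ≤
      ∑ s, ∑ i, (qR X N y s i - qc (X.α s) i) ^ 2 :=
    Finset.sum_le_sum fun s _ => Finset.sum_le_sum fun i _ => h1 s i
  refine le_trans ?_ h2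
  simp only [Finset.sum_sub_distrib, ← Finset.sum_div]
  have h3 := hlat fun j => y j - X.τ j
  linarith

/-- the corners vanish where the centre does -/
theorem q_compat (hX : X.Okb) (N : ℕ) (t : Fin d → ℤ) (s : Fin c) (i : Fin 3)
    (h : qc (X.α s) i = 0) : X.q N t s i = 0 := by
  obtain ⟨h1, h2⟩ := hX.zer s i h
  unfold Nw.q
  rw [h1, mul_zero, zero_add]
  exact Finset.sum_eq_zero fun j _ => by rw [h2 j, mul_zero]

theorem xN_compat (hX : X.Okb) (N : ℕ) (T : Fin d → ℂ) (s : Fin c) (i : Fin 3)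
    (h : qc (X.α s) i = 0) : X.xN N T s i = 0 := by
  obtain ⟨h1, h2⟩ := hX.zer s i h
  unfold Nw.xN
  rw [h1, Int.cast_zero, mul_zero, zero_add]
  exact Finset.sum_eq_zero fun j _ => by rw [h2 j, Int.cast_zero, mul_zero]

/-- the possible lattice points are in a box -/
theorem ps_box (_hX : X.Okb) {κ1 : ℝ} (hκ0 : 0 < κ1)
    (hlat : ∀ t : Fin d → ℝ, κ1 * ∑ j, t j ^ 2 ≤ ∑ s, ∑ i, latR X t s i ^ 2) :
    ∃ B : ℕ, 1 ≤ B ∧ ∀ N : ℕ, 0 < N → ∀ t : Fin d → ℤ, (∀ s, Ps N (X.q N t s)) →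
      ∀ j, |t j| ≤ (B * N : ℕ) := by
  set R : ℝ := ∑ s, ∑ i, (1 + |(X.q0 s i : ℝ)|) ^ 2 with hR
  have hR0 : 0 ≤ R := Finset.sum_nonneg fun _ _ => Finset.sum_nonneg fun _ _ => sq_nonneg _
  refine ⟨⌈R / κ1⌉₊ + 1, by omega, fun N hN t ht j => ?_⟩
  have hN0 : (0 : ℝ) < N := by exact_mod_cast hN
  have h1 := hlat fun j => (t j : ℝ) / N
  have h2 : ∑ s, ∑ i, latR X (fun j => (t j : ℝ) / N) s i ^ 2 ≤ R := by
    refine Finset.sum_le_sum fun s _ => Finset.sum_le_sum fun i _ => ?_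
    refine sq_le_sq' ?_ ?_ <;>
    · have h3 := qR_int X hN t s i
      unfold qR at h3
      have hq : 0 ≤ X.q N t s i ∧ X.q N t s i < N := by
        obtain ⟨a0, a1, a2, a3⟩ := ht s
        fin_cases i
        · exact ⟨a0, by show X.q N t s 0 < N; omega⟩
        · exact ⟨a1, by show X.q N t s 1 < N; omega⟩
        · exact ⟨a2, by show X.q N t s 2 < N; omega⟩
      have h4 : 0 ≤ (X.q N t s i : ℝ) / N := by
        have : (0 : ℝ) ≤ (X.q N t s i : ℝ) := by exact_mod_cast hq.1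
        positivity
      have h5 : (X.q N t s i : ℝ) / N ≤ 1 := by
        rw [div_le_one hN0]
        exact_mod_cast hq.2.le
      have h6 : |(1 - 1 / (N : ℝ)) * (X.q0 s i : ℝ)| ≤ |(X.q0 s i : ℝ)| := by
        rw [abs_mul]
        refine mul_le_of_le_one_left (abs_nonneg _) ?_
        have h7 : 1 / (N : ℝ) ≤ 1 := by
          rw [div_le_one hN0]
          exact_mod_cast hN
        have h8 : 0 ≤ 1 / (N : ℝ) := by positivity
        rw [abs_le]
        constructor <;> linarith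
      have h7 := abs_le.1 h6
      linarith [h7.1, h7.2]
  have h3 : ((t j : ℝ) / N) ^ 2 ≤ R / κ1 := by
    rw [le_div_iff₀ hκ0]
    have h4 : ((t j : ℝ) / N) ^ 2 ≤ ∑ j, ((t j : ℝ) / N) ^ 2 :=
      Finset.single_le_sum (f := fun j => ((t j : ℝ) / N) ^ 2) (fun _ _ => sq_nonneg _)
        (Finset.mem_univ j)
    nlinarith
  have h4 : R / κ1 ≤ ⌈R / κ1⌉₊ := Nat.le_ceil _
  have h5 : |(t j : ℝ) / N| ≤ ((⌈R / κ1⌉₊ + 1 : ℕ) : ℝ) := by
    refine abs_le_of_sq_le_sq ?_ (by positivity)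
    push_cast
    have : (0 : ℝ) ≤ ⌈R / κ1⌉₊ := Nat.cast_nonneg _
    nlinarith
  rw [abs_div, abs_of_pos hN0, div_le_iff₀ hN0] at h5
  exact_mod_cast h5

/-- the exponent -/
theorem expo_le (hX : X.Okb) {κ κ1 : ℝ} (hκ : 0 ≤ κ)
    (hlat : ∀ t : Fin d → ℝ, κ1 * ∑ j, t j ^ 2 ≤ ∑ s, ∑ i, latR X t s i ^ 2) {N : ℕ} (hN : 0 < N)
    (y : Fin d → ℝ) : N * ∑ s, (mR (X.α s) (qR X N y s) - κ * sR (X.α s) (qR X N y s)) ≤
      -(N * (κ * κ1 / 2 * ∑ j, (y j - X.τ j) ^ 2)) + (|m0 X| + κ * Q0 X) := by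
  have hN0 : (0 : ℝ) < N := by exact_mod_cast hN
  have hN1 : (1 : ℝ) ≤ N := by exact_mod_cast hN
  rw [Finset.sum_sub_distrib, sum_mR X hX, ← Finset.mul_sum]
  have h1 := sum_sR X hX hlat N y
  have h2 := mul_le_mul_of_nonneg_left h1 (mul_nonneg hN0.le hκ)
  have h3 : (N : ℝ) * (-(m0 X / N)) = -m0 X := by field_simp
  have h4 : -m0 X ≤ |m0 X| := neg_le_abs _
  have h5 : (N : ℝ) * κ * (Q0 X / N ^ 2) ≤ κ * Q0 X := by
    have h6 : (N : ℝ) * κ * (Q0 X / N ^ 2) = κ * Q0 X / N := by field_simp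
    rw [h6, div_le_iff₀ hN0]
    exact le_mul_of_one_le_right (mul_nonneg hκ (Q0_nonneg X)) hN1
  have h7 : (N : ℝ) * κ * (κ1 / 2 * ∑ j, (y j - X.τ j) ^ 2 - Q0 X / N ^ 2) =
      N * (κ * κ1 / 2 * ∑ j, (y j - X.τ j) ^ 2) - N * κ * (Q0 X / N ^ 2) := by ring
  rw [h7] at h2
  have h8 : (N : ℝ) * (-(m0 X / N) - κ * ∑ s, sR (X.α s) (qR X N y s)) =
      N * (-(m0 X / N)) - N * κ * ∑ s, sR (X.α s) (qR X N y s) := by ring
  rw [h8, h3]
  linarith


end

end Pool.Agent.Q210.HU
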